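import Mathlib

/-!
# Residue classes by characters
-/

set_option autoImplicit false

namespace Pool.Agent.N949.AL

open Finset

theorem four (q : ℕ) (hq : 1 ≤ q) (A r : ℕ) [Decidable (A ≡ r [MOD q])] :
    ∑ j ∈ range q, Real.cos (2 * Real.pi * j / q * A + -(2 * Real.pi * j / q * r)) =
      if A ≡ r [MOD q] then (q : ℝ) else 0 := by
  have hq0 : (q : ℂ) ≠ 0 := by exact_mod_cast (by omega : q ≠ 0)
  obtain ⟨d, hd⟩ : ∃ d : ℤ, d = (A : ℤ) - r := ⟨_, rfl⟩
  obtain ⟨z, hz⟩ : ∃ z : ℂ, z = Complex.exp (2 * Real.pi * Complex.I * d / q) := ⟨_, rfl⟩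
  have h1 : ∑ j ∈ range q, Real.cos (2 * Real.pi * j / q * A + -(2 * Real.pi * j / q * r)) =
      (∑ j ∈ range q, z ^ j).re := by
    rw [Complex.re_sum]
    refine sum_congr rfl fun j _ => ?_
    rw [hz, ← Complex.exp_nat_mul]
    have e : (j : ℂ) * (2 * Real.pi * Complex.I * d / q) =
        ((2 * Real.pi * j / q * A + -(2 * Real.pi * j / q * r) : ℝ) : ℂ) * Complex.I := by
      rw [hd]
      push_cast
      ring
    rw [e, Complex.exp_ofReal_mul_I_re]
  have hzq : z ^ q = 1 := by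
    rw [hz, ← Complex.exp_nat_mul]
    have e : (q : ℂ) * (2 * Real.pi * Complex.I * d / q) = d * (2 * Real.pi * Complex.I) := by
      field_simp
    rw [e, Complex.exp_int_mul_two_pi_mul_I]
  rw [h1]
  split_ifs with h
  · have h2 : z = 1 := by
      obtain ⟨k, hk⟩ := (Nat.modEq_iff_dvd.1 h.symm)
      rw [hz, hd]
      have e : 2 * (Real.pi : ℂ) * Complex.I * (((A : ℤ) - r : ℤ) : ℂ) / q =
          k * (2 * Real.pi * Complex.I) := by
        rw [hk]
        push_cast
        field_simp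
      rw [e, Complex.exp_int_mul_two_pi_mul_I]
    rw [h2]
    simp
  · have h2 : z ≠ 1 := by
      intro hcon
      apply h
      rw [hz, Complex.exp_eq_one_iff] at hcon
      obtain ⟨k, hk⟩ := hcon
      have h3 : (d : ℂ) = k * q := by
        have h4 : (2 * (Real.pi : ℂ) * Complex.I) ≠ 0 := Complex.two_pi_I_ne_zero
        have h5 : (2 * (Real.pi : ℂ) * Complex.I) * d = (2 * (Real.pi : ℂ) * Complex.I) * (k * q) := by
          rw [div_eq_iff hq0] at hk
          rw [hk]
          ring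
        exact mul_left_cancel₀ h4 h5
      have h4 : d = k * q := by exact_mod_cast h3
      refine (Nat.modEq_iff_dvd.2 ⟨k, ?_⟩).symm
      rw [← hd, h4]
      ring
    have h3 := geom_sum_eq h2 q
    rw [h3, hzq]
    simp

theorem four' (q : ℕ) (hq : 1 ≤ q) (A r : ℕ) [Decidable (A ≡ r [MOD q])] :
    (if A ≡ r [MOD q] then (1 : ℝ) else 0) - 1 / q = (1 / q : ℝ) *
      ∑ j ∈ Ico 1 q, Real.cos (2 * Real.pi * j / q * A + -(2 * Real.pi * j / q * r)) := by
  have h1 := four q hq A r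
  rw [Finset.range_eq_Ico, Finset.sum_eq_sum_Ico_succ_bot (by omega)] at h1
  have hq0 : (q : ℝ) ≠ 0 := by exact_mod_cast (by omega : q ≠ 0)
  simp only [Nat.cast_zero, mul_zero, zero_div, zero_mul, neg_zero, add_zero, Real.cos_zero,
    zero_add] at h1
  have h2 : ∑ j ∈ Ico 1 q, Real.cos (2 * Real.pi * j / q * A + -(2 * Real.pi * j / q * r)) =
      (if A ≡ r [MOD q] then (q : ℝ) else 0) - 1 := by linarith
  rw [h2]
  split_ifs
  · field_simp
  · field_simp
    ring

theorem sin_low (q j : ℕ) (h1 : 1 ≤ j) (h2 : j < q) :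
    1 / (q : ℝ) ^ 2 ≤ Real.sin (2 * Real.pi * j / q / 2) ^ 2 := by
  have hj : (1 : ℝ) ≤ j := by exact_mod_cast h1
  have hjq : (j : ℝ) + 1 ≤ q := by exact_mod_cast h2
  have hq : (0 : ℝ) < q := by linarith
  have hpi := Real.pi_pos
  have e : 2 * Real.pi * j / q / 2 = Real.pi * (j / q) := by ring
  rw [e]
  have key : ∀ x : ℝ, 1 / (q : ℝ) ≤ x → x ≤ 1 / 2 → 1 / (q : ℝ) ^ 2 ≤ Real.sin (Real.pi * x) ^ 2 := by
    intro x hx1 hx2
    have hx0 : 0 < 1 / (q : ℝ) := by positivity
    have h3 := Real.mul_le_sin (x := Real.pi * x) (by nlinarith) (by nlinarith)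
    have h4 : 2 / Real.pi * (Real.pi * x) = 2 * x := by field_simp
    rw [h4] at h3
    have h5 : 1 / (q : ℝ) ≤ Real.sin (Real.pi * x) := by linarith
    have h6 := pow_le_pow_left₀ hx0.le h5 2
    rwa [div_pow, one_pow] at h6
  rcases le_total ((j : ℝ) / q) (1 / 2) with h | h
  · exact key _ (div_le_div_of_nonneg_right hj hq.le) h
  · have h3 := key (1 - j / q) (by
      rw [div_le_iff₀ hq, sub_mul, div_mul_cancel₀ _ hq.ne']
      linarith) (by linarith)
    have h4 : Real.pi * (1 - (j : ℝ) / q) = Real.pi - Real.pi * (j / q) := by ring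
    rw [h4, Real.sin_pi_sub] at h3
    exact h3

end Pool.Agent.N949.AL
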