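import Pool.Agent.N949.AL.Main
import Pool.Agent.N949.AL.Four
import Pool.Agent.N949.AO.Osc

/-!
# The area law of self-avoiding polygons: characteristic function and iterated differences
-/

set_option autoImplicit false

namespace Pool.Agent.N949.AL

open Finset Pool.Agent.H976R2 Pool.Agent.H976R2.Lip Pool.Agent.H924P Pool.Agent.H739K
open Pool.Agent.R54.AS
open scoped Classical

/-- `F` does not change when one vertex is moved and its old and new positions are not in `V` -/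
def Unch (N : ℕ) (V : Finset P2) (F : (ZMod (2 * N) → ℤ × ℤ) → ℝ) : Prop :=
  ∀ f f' : ZMod (2 * N) → ℤ × ℤ, IsLoop (2 * N) f → IsLoop (2 * N) f' → ∀ k,
    (∀ j, j ≠ k → f j = f' j) → f k ∉ V → f' k ∉ V → F f' = F f

/-- binomial weights and characteristic functions -/
theorem osc1 (t φ : ℝ) (m u : ℕ) :
    |∑ j ∈ range (m + 1), (m.choose j : ℝ) * Real.cos (t * ((u + j : ℕ) : ℝ) + φ)| ≤
      Real.exp (-(5 / 18 * Real.sin (t / 2) ^ 2 * m)) * 2 ^ m := by
  have h := Pool.Agent.N949.AO.osc (y := 1) (by norm_num) (by norm_num) (t / 2) φ m (2 * u)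
  have e : ∑ j ∈ range (m + 1), (m.choose j : ℝ) * (1 : ℝ) ^ j *
      Real.cos (t / 2 * ((2 * u + 2 * j : ℕ) : ℝ) + φ) =
      ∑ j ∈ range (m + 1), (m.choose j : ℝ) * Real.cos (t * ((u + j : ℕ) : ℝ) + φ) := by
    refine sum_congr rfl fun j _ => ?_
    rw [one_pow, mul_one]
    congr 2
    push_cast
    ring
  rw [e] at h
  norm_num at h ⊢
  exact h

/-- binomial weights and iterated differences -/
theorem dif1 (k : ℕ) : ∃ C : ℝ, 0 < C ∧ ∀ (m u : ℕ) (h : ℕ → ℝ), (∀ a, |h a| ≤ 1) →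
    |∑ j ∈ range (m + 1), (m.choose j : ℝ) *
      ∑ i ∈ range (k + 1), (-1 : ℝ) ^ i * (k.choose i : ℝ) * h (u + j + i)| ≤
      C / Real.sqrt (m + 1) ^ k * 2 ^ m := by
  obtain ⟨C, hC, hd⟩ := Pool.Agent.N949.AO.dif k
  refine ⟨C, hC, fun m u h hh => ?_⟩
  have h1 := hd m (2 * u) 1 (fun a => h (a / 2)) (by norm_num) (by norm_num) (fun a => hh _)
  have e : ∑ j ∈ range (m + 1), (m.choose j : ℝ) * (1 : ℝ) ^ j *
      ∑ i ∈ range (k + 1), (-1 : ℝ) ^ i * (k.choose i : ℝ) *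
        (fun a => h (a / 2)) (2 * u + 2 * j + 2 * i) =
      ∑ j ∈ range (m + 1), (m.choose j : ℝ) *
      ∑ i ∈ range (k + 1), (-1 : ℝ) ^ i * (k.choose i : ℝ) * h (u + j + i) := by
    refine sum_congr rfl fun j _ => ?_
    rw [one_pow, mul_one]
    congr 1
    refine sum_congr rfl fun i _ => ?_
    have : (2 * u + 2 * j + 2 * i) / 2 = u + j + i := by omega
    simp only [this]
  rw [e] at h1
  norm_num at h1 ⊢
  exact h1

theorem loop_flip {N : ℕ} (hN : 2 ≤ N) {V : Finset P2} {F : (ZMod (2 * N) → ℤ × ℤ) → ℝ}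
    (hF : Unch N V F) {w : List Dir} (hw : w ∈ KP (2 * N - 1)) {i : ℕ} (hi : i ∈ fc w)
    (hV : Av V (lab w i)) : F (lp (2 * N) (sw w i)) = F (lp (2 * N) w) := by
  obtain ⟨h1, h2, h3, h4, h5, h6, h7, h8, h9⟩ := flip_all (by omega) hw hi
  have hl := (Fin.mem_KP.mp hw).1
  have : NeZero (2 * N) := ⟨by omega⟩
  have hi' := (Pool.Agent.R715.ASFlip.mem_fc w i).1 hi
  have hval : ((i + 1 : ℕ) : ZMod (2 * N)).val = i + 1 := ZMod.val_natCast_of_lt (by omega)
  have e1 : lp (2 * N) w ((i + 1 : ℕ) : ZMod (2 * N)) = PP w (i + 1) := by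
    unfold H739K.lp PP
    rw [hval]
  have e2 : lp (2 * N) (sw w i) ((i + 1 : ℕ) : ZMod (2 * N)) = fv w i := by
    rw [← Pool.Agent.R715.ASFlip.PP_sw_1 w i hi'.1]
    unfold H739K.lp PP
    rw [hval]
  refine hF _ _ ((CONV_proof N hN).2.2 w hw) ((CONV_proof N hN).2.2 _ h1)
    ((i + 1 : ℕ) : ZMod (2 * N)) ?_ ?_ ?_
  · intro j hj
    have h10 : j.val ≠ i + 1 := by
      intro h
      apply hj
      rw [← h, ZMod.natCast_zmod_val]
    exact (h8 j.val h10).symm
  · rw [e1]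
    rcases corner w hi with ⟨c1, c2⟩ | ⟨c1, c2⟩
    · rw [c1]; exact hV.2
    · rw [c1]; exact hV.1
  · rw [e2]
    rcases corner w hi with ⟨c1, c2⟩ | ⟨c1, c2⟩
    · rw [c2]; exact hV.1
    · rw [c2]; exact hV.2

/-- the general estimate -/
theorem core : ∃ (κ : ℕ) (C₀ c : ℝ), 1 ≤ κ ∧ 0 < C₀ ∧ 0 < c ∧ ∀ N : ℕ, 2 ≤ N →
    ∀ (V : Finset P2) (F : (ZMod (2 * N) → ℤ × ℤ) → ℝ), 2500 * V.card ≤ N →
    (∀ f, IsLoop (2 * N) f → |F f| ≤ 1) → Unch N V F →
    ∀ (ψ β : ℕ → ℝ) (b B : ℝ),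
    (∀ m u : ℕ, |∑ j ∈ range (m + 1), (m.choose j : ℝ) * ψ (u + j)| ≤ β m * 2 ^ m) →
    (∀ m, 0 ≤ β m ∧ β m ≤ B) → 0 ≤ b → (∀ m : ℕ, (N : ℝ) ≤ 100 * κ * m → β m ≤ b) →
    |me N (fun f => F f * ψ (area (2 * N) f))| ≤ b * me N (fun f => |F f|) +
      B * (C₀ * Real.exp (-(c * N))) := by
  obtain ⟨κ, hκ, hmain⟩ := words_main
  obtain ⟨C1, c1, hC1, hc1, hfew⟩ := Fin.few_exp
  have hκ0 : (0 : ℝ) < κ := by exact_mod_cast hκ
  obtain ⟨c, hc⟩ : ∃ c : ℝ, c = min c1 (1 / (100 * κ)) := ⟨_, rfl⟩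
  have hcpos : 0 < c := by rw [hc]; exact lt_min hc1 (by positivity)
  refine ⟨κ, 2 * C1 + 1, c, hκ, by positivity, hcpos, ?_⟩
  intro N hN V F hV hF hU ψ β b B hψ hβ hb hβb
  have hNr : (2 : ℝ) ≤ N := by exact_mod_cast hN
  have hB0 : 0 ≤ B := (hβ 0).1.trans (hβ 0).2
  obtain ⟨n, hn⟩ : ∃ n, n = 2 * N - 1 := ⟨_, rfl⟩
  have hn3 : 3 ≤ n := by omega
  have hnN : (N : ℝ) ≤ n := by exact_mod_cast (by omega : N ≤ n)
  have hcp : (0 : ℝ) < ((KP (2 * N - 1)).card : ℝ) := Fin.card_pos hN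
  rw [← hn] at hcp
  have hm := hmain n hn3 V (fun w => F (lp (2 * N) w)) (fun w hw => by
      rw [hn] at hw
      exact hF _ ((CONV_proof N hN).2.2 w hw)) (fun w hw i hi hA => by
      rw [hn] at hw
      exact loop_flip hN hU hw hi hA) ψ β b B (n / 100) hψ hβ hb (fun m hm => hβb m (by
        have : (n : ℝ) ≤ 100 * (κ * m) := by linarith
        linarith))
  -- the error term
  have e1 : (((KP n).filter (fun w => ((fc w).card : ℝ) < (n : ℝ) / 100 + 25 * V.card)).card : ℝ) ≤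
      C1 * Real.exp (-(c * N)) * ((KP n).card : ℝ) := by
    have h1 : (((KP n).filter
        (fun w => ((fc w).card : ℝ) < (n : ℝ) / 100 + 25 * V.card)).card : ℝ) ≤
        ((fewc n).card : ℝ) := by
      rw [Nat.cast_le]
      refine Finset.card_le_card fun w hw => ?_
      rw [mem_filter] at hw
      unfold fewc
      rw [mem_filter]
      refine ⟨(mem_filter.mp hw.1).1, ?_⟩
      have h2 : (2500 : ℝ) * V.card ≤ N := by exact_mod_cast hV
      have h3 := hw.2
      linarith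
    refine h1.trans ((hfew n hn3 (by omega)).trans ?_)
    refine mul_le_mul_of_nonneg_right (mul_le_mul_of_nonneg_left ?_ hC1.le) hcp.le
    refine Real.exp_le_exp.2 (neg_le_neg ?_)
    exact mul_le_mul (by rw [hc]; exact min_le_left _ _) hnN (by positivity) hc1.le
  have e2 : Real.exp (-((n : ℝ) / 100 / κ)) ≤ Real.exp (-(c * N)) := by
    refine Real.exp_le_exp.2 (neg_le_neg ?_)
    have h1 : (n : ℝ) / 100 / κ = 1 / (100 * κ) * n := by
      field_simp
    rw [h1]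
    exact mul_le_mul (by rw [hc]; exact min_le_right _ _) hnN (by positivity) (by positivity)
  have e3 : 2 * (((KP n).filter
      (fun w => ((fc w).card : ℝ) < (n : ℝ) / 100 + 25 * V.card)).card : ℝ) +
      Real.exp (-((n : ℝ) / 100 / κ)) * ((KP n).card : ℝ) ≤
      (2 * C1 + 1) * Real.exp (-(c * N)) * ((KP n).card : ℝ) := by
    have h1 := mul_le_mul_of_nonneg_right e2 hcp.le
    linarith
  have e4 := mul_le_mul_of_nonneg_left e3 hB0
  have g1 : me N (fun f => F f * ψ (area (2 * N) f)) =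
      (∑ w ∈ KP n, F (lp (2 * N) w) * ψ (ar w)) / ((KP n).card : ℝ) := by
    rw [F4x.me_eq CONV_proof hN, ← hn]
    congr 1
    refine sum_congr rfl fun w hw => ?_
    rw [hn] at hw
    rw [F4x.ar_eq hN hw]
  have g2 : me N (fun f => |F f|) = (∑ w ∈ KP n, |F (lp (2 * N) w)|) / ((KP n).card : ℝ) := by
    rw [F4x.me_eq CONV_proof hN, ← hn]
  rw [g1, g2, abs_div, abs_of_pos hcp, div_le_iff₀ hcp, add_mul, mul_assoc b,
    div_mul_cancel₀ _ hcp.ne']
  refine hm.trans ?_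
  linarith

theorem me_nonneg {N : ℕ} (hN : 2 ≤ N) (F : (ZMod (2 * N) → ℤ × ℤ) → ℝ) (h : ∀ f, 0 ≤ F f) :
    0 ≤ me N F := by
  rw [F4x.me_eq CONV_proof hN]
  exact div_nonneg (sum_nonneg fun w _ => h _) (Nat.cast_nonneg _)

theorem me_sum {N : ℕ} (hN : 2 ≤ N) {ι : Type} (s : Finset ι) (c : ℝ)
    (G : ι → (ZMod (2 * N) → ℤ × ℤ) → ℝ) :
    me N (fun f => c * ∑ j ∈ s, G j f) = c * ∑ j ∈ s, me N (G j) := by
  rw [F4x.me_eq CONV_proof hN, ← mul_sum, sum_comm, mul_div_assoc, sum_div]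
  congr 1
  refine sum_congr rfl fun j _ => ?_
  rw [F4x.me_eq CONV_proof hN]

theorem me_sub' {N : ℕ} (hN : 2 ≤ N) (F G : (ZMod (2 * N) → ℤ × ℤ) → ℝ) :
    me N F - me N G = me N (fun f => F f - G f) := by
  rw [F4x.me_eq CONV_proof hN, F4x.me_eq CONV_proof hN, F4x.me_eq CONV_proof hN,
    Finset.sum_sub_distrib, sub_div]

theorem me_mul {N : ℕ} (hN : 2 ≤ N) (F : (ZMod (2 * N) → ℤ × ℤ) → ℝ) (c : ℝ) :
    me N F * c = me N (fun f => F f * c) := by
  rw [F4x.me_eq CONV_proof hN, F4x.me_eq CONV_proof hN, ← sum_mul]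
  ring

/-- everything together -/
theorem fin : ∃ C : ℝ, 1 ≤ C ∧ ∃ A : ℕ → ℝ, ∀ N : ℕ, 2 ≤ N →
    ∀ (V : Finset P2) (F : (ZMod (2 * N) → ℤ × ℤ) → ℝ), C * V.card ≤ N →
    (∀ f, IsLoop (2 * N) f → |F f| ≤ 1) → Unch N V F →
    (∀ t φ : ℝ, |me N (fun f => F f * Real.cos (t * (area (2 * N) f : ℝ) + φ))| ≤
      C * (me N (fun f => |F f|) * Real.exp (-(Real.sin (t / 2) ^ 2 * N / C)) +
        Real.exp (-(N / C)))) ∧
    (∀ (k : ℕ) (h : ℕ → ℝ), (∀ a, |h a| ≤ 1) →
      |me N (fun f => F f * ∑ i ∈ range (k + 1), (-1 : ℝ) ^ i * (k.choose i : ℝ) *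
        h (area (2 * N) f + i))| ≤
      A k * (me N (fun f => |F f|) / Real.sqrt N ^ k + Real.exp (-(N / C)))) ∧
    (∀ q : ℕ, 1 ≤ q → ∀ r : ℕ,
      |me N (fun f => F f * (if area (2 * N) f ≡ r [MOD q] then 1 else 0)) - me N F / q| ≤
      C * (me N (fun f => |F f|) * Real.exp (-(N / (C * q ^ 2))) + Real.exp (-(N / C)))) := by
  obtain ⟨κ, C₀, c, hκ, hC₀, hc, hcore⟩ := core
  choose C₂ hC₂ hdif using dif1
  have hκ0 : (0 : ℝ) < κ := by exact_mod_cast hκ
  obtain ⟨C, hC⟩ : ∃ C : ℝ, C = 2500 + 360 * κ + C₀ + 1 / c := ⟨_, rfl⟩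
  have d1 : 0 < 1 / c := by positivity
  have hC1 : 2500 ≤ C := by rw [hC]; linarith
  have hCκ : 360 * κ ≤ C := by rw [hC]; linarith
  have hCC : C₀ ≤ C := by rw [hC]; linarith
  have hCc : 1 / c ≤ C := by rw [hC]; linarith
  have hCpos : 0 < C := by linarith
  have hexp : ∀ N : ℕ, Real.exp (-(c * N)) ≤ Real.exp (-((N : ℝ) / C)) := by
    intro N
    refine Real.exp_le_exp.2 (neg_le_neg ?_)
    rw [div_le_iff₀ hCpos]
    rw [div_le_iff₀ hc] at hCc
    have h1 : (N : ℝ) * 1 ≤ N * (C * c) := mul_le_mul_of_nonneg_left hCc (Nat.cast_nonneg _)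
    linarith
  refine ⟨C, by linarith, fun k => C₂ k * (Real.sqrt (100 * κ) ^ k + C₀), ?_⟩
  intro N hN V F hV hF hU
  have hNr : (2 : ℝ) ≤ N := by exact_mod_cast hN
  have hV' : 2500 * V.card ≤ N := by
    have h1 : (2500 : ℝ) * V.card ≤ C * V.card :=
      mul_le_mul_of_nonneg_right hC1 (Nat.cast_nonneg _)
    exact_mod_cast h1.trans hV
  have hM0 : 0 ≤ me N (fun f => |F f|) := me_nonneg hN _ fun f => abs_nonneg _
  have hcos : ∀ t φ : ℝ, |me N (fun f => F f * Real.cos (t * (area (2 * N) f : ℝ) + φ))| ≤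
      C * (me N (fun f => |F f|) * Real.exp (-(Real.sin (t / 2) ^ 2 * N / C)) +
        Real.exp (-(N / C))) := by
    intro t φ
    have h1 := hcore N hN V F hV' hF hU (fun a => Real.cos (t * (a : ℝ) + φ))
      (fun m => Real.exp (-(5 / 18 * Real.sin (t / 2) ^ 2 * m)))
      (Real.exp (-(Real.sin (t / 2) ^ 2 * N / C))) 1
      (fun m u => osc1 t φ m u) (fun m => ⟨(Real.exp_pos _).le, by
        rw [Real.exp_le_one_iff]
        have : 0 ≤ 5 / 18 * Real.sin (t / 2) ^ 2 * m := by positivity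
        linarith⟩) (Real.exp_pos _).le (fun m hm => by
        refine Real.exp_le_exp.2 (neg_le_neg ?_)
        have h2 : (N : ℝ) / C ≤ 5 / 18 * m := by
          rw [div_le_iff₀ hCpos]
          have h3 : 360 * κ * (m : ℝ) ≤ C * m :=
            mul_le_mul_of_nonneg_right hCκ (Nat.cast_nonneg _)
          linarith
        have h3 := mul_le_mul_of_nonneg_left h2 (sq_nonneg (Real.sin (t / 2)))
        have e1 : Real.sin (t / 2) ^ 2 * N / C = Real.sin (t / 2) ^ 2 * (N / C) := by ring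
        have e2 : 5 / 18 * Real.sin (t / 2) ^ 2 * m = Real.sin (t / 2) ^ 2 * (5 / 18 * m) := by
          ring
        rw [e1, e2]
        exact h3)
    refine h1.trans ?_
    rw [mul_add, one_mul]
    have h4 : 0 ≤ me N (fun f => |F f|) * Real.exp (-(Real.sin (t / 2) ^ 2 * N / C)) :=
      mul_nonneg hM0 (Real.exp_pos _).le
    refine add_le_add ?_ (mul_le_mul hCC (hexp N) (Real.exp_pos _).le hCpos.le)
    rw [mul_comm (Real.exp _)]
    exact le_mul_of_one_le_left h4 (by linarith)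
  refine ⟨hcos, ?_, ?_⟩
  · intro k g hg
    have h1 := hcore N hN V F hV' hF hU (fun a => ∑ i ∈ range (k + 1),
        (-1 : ℝ) ^ i * (k.choose i : ℝ) * g (a + i))
      (fun m => C₂ k / Real.sqrt (m + 1) ^ k)
      (C₂ k * Real.sqrt (100 * κ) ^ k / Real.sqrt N ^ k) (C₂ k)
      (fun m u => hdif k m u g hg) (fun m => ⟨by
        have := hC₂ k
        positivity, by
        have h2 : (1 : ℝ) ≤ Real.sqrt (m + 1) := by
          rw [Real.one_le_sqrt]
          have : (0 : ℝ) ≤ m := Nat.cast_nonneg _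
          linarith
        exact div_le_self (hC₂ k).le (one_le_pow₀ h2)⟩) (by
        have := hC₂ k
        positivity) (by
        intro m hm
        have hm0 : (0 : ℝ) ≤ m := Nat.cast_nonneg _
        have h2 : Real.sqrt N ≤ Real.sqrt (100 * κ) * Real.sqrt (m + 1) := by
          rw [← Real.sqrt_mul (by positivity)]
          refine Real.sqrt_le_sqrt ?_
          have : 0 ≤ 100 * (κ : ℝ) := by positivity
          linarith
        have h3 : Real.sqrt N ^ k ≤ Real.sqrt (100 * κ) ^ k * Real.sqrt (m + 1) ^ k := by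
          rw [← mul_pow]
          exact pow_le_pow_left₀ (Real.sqrt_nonneg _) h2 k
        have h4 : 0 < Real.sqrt (N : ℝ) := Real.sqrt_pos.2 (by linarith)
        have h5 : 0 < Real.sqrt ((m : ℝ) + 1) := Real.sqrt_pos.2 (by linarith)
        rw [div_le_div_iff₀ (by positivity) (by positivity)]
        have := mul_le_mul_of_nonneg_left h3 (hC₂ k).le
        linarith)
    refine h1.trans ?_
    have h4 : 0 < Real.sqrt (N : ℝ) := Real.sqrt_pos.2 (by linarith)
    have h5 : 0 ≤ me N (fun f => |F f|) / Real.sqrt N ^ k := by positivity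
    have h6 : 0 ≤ Real.exp (-((N : ℝ) / C)) := (Real.exp_pos _).le
    have h7 := mul_le_mul_of_nonneg_left (hexp N) (mul_nonneg (hC₂ k).le hC₀.le)
    have h8 : 0 ≤ C₂ k * C₀ * (me N (fun f => |F f|) / Real.sqrt N ^ k) :=
      mul_nonneg (mul_nonneg (hC₂ k).le hC₀.le) h5
    have h9 : 0 ≤ C₂ k * Real.sqrt (100 * κ) ^ k * Real.exp (-((N : ℝ) / C)) := by
      have := hC₂ k
      positivity
    have e1 : C₂ k * Real.sqrt (100 * κ) ^ k / Real.sqrt N ^ k * me N (fun f => |F f|) =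
        C₂ k * Real.sqrt (100 * κ) ^ k * (me N (fun f => |F f|) / Real.sqrt N ^ k) := by ring
    rw [e1]
    simp only [mul_add, add_mul]
    linarith
  · intro q hq r
    have hq0 : (0 : ℝ) < q := by exact_mod_cast hq
    have e1 : me N (fun f => F f * (if area (2 * N) f ≡ r [MOD q] then 1 else 0)) - me N F / q =
        1 / q * ∑ j ∈ Ico 1 q, me N (fun f => F f *
          Real.cos (2 * Real.pi * j / q * (area (2 * N) f : ℝ) +
            -(2 * Real.pi * j / q * r))) := by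
      rw [← me_sum hN, div_eq_mul_one_div, me_mul hN, me_sub' hN]
      congr 1
      funext f
      rw [← mul_sub, four' q hq, mul_sum, mul_sum, mul_sum]
      refine sum_congr rfl fun j _ => ?_
      ring
    rw [e1, abs_mul, abs_of_pos (by positivity : (0 : ℝ) < 1 / q)]
    have h1 : ∀ j ∈ Ico 1 q, |me N (fun f => F f *
          Real.cos (2 * Real.pi * j / q * (area (2 * N) f : ℝ) +
            -(2 * Real.pi * j / q * r)))| ≤
        C * (me N (fun f => |F f|) * Real.exp (-(N / (C * q ^ 2))) + Real.exp (-(N / C))) := by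
      intro j hj
      rw [mem_Ico] at hj
      refine (hcos _ _).trans (mul_le_mul_of_nonneg_left (add_le_add ?_ le_rfl) hCpos.le)
      refine mul_le_mul_of_nonneg_left (Real.exp_le_exp.2 (neg_le_neg ?_)) hM0
      have h2 := sin_low q j hj.1 hj.2
      have e2 : (N : ℝ) / (C * q ^ 2) = 1 / (q : ℝ) ^ 2 * N / C := by
        field_simp
      rw [e2]
      exact div_le_div_of_nonneg_right (mul_le_mul_of_nonneg_right h2 (Nat.cast_nonneg _))
        hCpos.le
    have h2 : |∑ j ∈ Ico 1 q, me N (fun f => F f *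
          Real.cos (2 * Real.pi * j / q * (area (2 * N) f : ℝ) +
            -(2 * Real.pi * j / q * r)))| ≤
        q * (C * (me N (fun f => |F f|) * Real.exp (-(N / (C * q ^ 2))) +
          Real.exp (-(N / C)))) := by
      refine (abs_sum_le_sum_abs _ _).trans ((sum_le_card_nsmul _ _ _ h1).trans ?_)
      rw [nsmul_eq_mul, Nat.card_Ico]
      refine mul_le_mul_of_nonneg_right ?_ ?_
      · exact_mod_cast Nat.sub_le q 1
      · have := (Real.exp_pos (-((N : ℝ) / (C * q ^ 2)))).le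
        have := (Real.exp_pos (-((N : ℝ) / C))).le
        positivity
    calc 1 / (q : ℝ) * _ ≤ 1 / (q : ℝ) * _ := mul_le_mul_of_nonneg_left h2 (by positivity)
      _ = _ := by field_simp

end Pool.Agent.N949.AL
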