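import Pool.Agent.N949.AL.Fin
import Pool.Agent.N949.AO.Pas

/-!
# Consequences
-/

set_option autoImplicit false

namespace Pool.Agent.N949.AL

open Finset

theorem ind_dif1 (a m : ℕ) : (if m ≤ a then (1 : ℝ) else 0) - (if m + 1 ≤ a then (1 : ℝ) else 0) =
    if m = a then 1 else 0 := by
  split_ifs <;> first | omega | norm_num

theorem dif_ind1 (k a m : ℕ) :
    ∑ i ∈ range (k + 1 + 1), (-1 : ℝ) ^ i * ((k + 1).choose i : ℝ) *
      (if m + i ≤ a then (1 : ℝ) else 0) =
      ∑ i ∈ range (k + 1), (-1 : ℝ) ^ i * (k.choose i : ℝ) *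
        (if m + i = a then (1 : ℝ) else 0) := by
  have h := Pool.Agent.N949.AO.pascal k (fun i => if m + i ≤ a then (1 : ℝ) else 0)
  rw [h]
  refine sum_congr rfl fun i _ => ?_
  congr 1
  have := ind_dif1 a (m + i)
  rw [← this]
  rfl

end Pool.Agent.N949.AL
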