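import Pool.Agent.N949.AL.Sel

/-!
# Averages of functions of the area
-/

set_option autoImplicit false

namespace Pool.Agent.N949.AL

open Finset Pool.Agent.H976R2 Pool.Agent.H976R2.Lip Pool.Agent.H924P Pool.Agent.H739K
open Pool.Agent.R54.AS
open Pool.Agent.N949.AO (TS Inv)
open scoped Classical

theorem words_main : ∃ κ : ℕ, 1 ≤ κ ∧ ∀ (n : ℕ), 3 ≤ n → ∀ (V : Finset P2) (F : List Dir → ℝ),
    (∀ w ∈ KP n, |F w| ≤ 1) →
    (∀ w ∈ KP n, ∀ i ∈ fc w, Av V (lab w i) → F (sw w i) = F w) →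
    ∀ (ψ β : ℕ → ℝ) (b B ω : ℝ),
    (∀ m u : ℕ, |∑ j ∈ range (m + 1), (m.choose j : ℝ) * ψ (u + j)| ≤ β m * 2 ^ m) →
    (∀ m, 0 ≤ β m ∧ β m ≤ B) → 0 ≤ b → (∀ m : ℕ, ω ≤ κ * m → β m ≤ b) →
    |∑ w ∈ KP n, F w * ψ (ar w)| ≤ b * ∑ w ∈ KP n, |F w| +
      B * (2 * (((KP n).filter (fun w => ((fc w).card : ℝ) < ω + 25 * V.card)).card : ℝ) +
        Real.exp (-(ω / κ)) * ((KP n).card : ℝ)) := by
  obtain ⟨κ, hκ, h⟩ := select
  refine ⟨κ, hκ, ?_⟩
  intro n hn V F hF1 hF2 ψ β b B ω hψ hβ hb hβb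
  obtain ⟨L, hL, hLV, hsel⟩ := h (KP n) V
  have hκ0 : (0 : ℝ) < κ := by exact_mod_cast hκ
  have hB0 : 0 ≤ B := (hβ 0).1.trans (hβ 0).2
  have hTS := tsp hn hL
  have hInv : Inv (KA n) (Slw L) (Ocw L) fl F := by
    intro a w hw q hq hq'
    rw [mem_KA] at hw
    rw [mem_Slw] at hq
    obtain ⟨hqL, i, hi, rfl⟩ := hq
    rw [fl_eq (Fin.mem_KP.mp hw.1).2.1 hi]
    exact hF2 w hw.1 i hi (hLV _ hqL)
  obtain ⟨N', hN'⟩ : ∃ N', N' = (KP n).sup ar + 1 := ⟨_, rfl⟩
  have hbig : ∀ w ∈ KP n, ar w < N' := by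
    intro w hw
    rw [hN']
    exact Nat.lt_succ_of_le (Finset.le_sup (f := ar) hw)
  have hK : ∀ a, N' ≤ a → KA n a = ∅ := by
    intro a ha
    rw [Finset.eq_empty_iff_forall_notMem]
    intro w hw
    rw [mem_KA] at hw
    have := hbig w hw.1
    omega
  have hlen : ∀ a, ∀ w ∈ KA n a, ar w = a := fun a w hw => (mem_KA.1 hw).2
  have hX : @Finset.biUnion _ _ (fun a b => Classical.propDecidable (a = b)) (range N') (KA n) =
      KP n := by
    ext w
    rw [@Finset.mem_biUnion _ _ _ _ (fun a b => Classical.propDecidable (a = b))]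
    constructor
    · rintro ⟨a, -, hw⟩
      exact (mem_KA.1 hw).1
    · intro hw
      exact ⟨ar w, mem_range.2 (hbig w hw), mem_KA.2 ⟨hw, rfl⟩⟩
  have hcl := Pool.Agent.N949.AO.class_le hTS ar hlen hK hInv one_pos ψ β (fun m u => by
    simp only [one_pow, mul_one, one_mul]
    have h1 := hψ m u
    norm_num
    exact h1)
  have f1 := Pool.Agent.N949.AO.flat ar hlen N' 1 (fun a w => F w * ψ a)
  have f2 := Pool.Agent.N949.AO.flat ar hlen N' 1 (fun _ w => |F w| * β (Slw L w).card)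
  rw [f1, f2, hX] at hcl
  simp only [one_pow, one_mul] at hcl
  refine hcl.trans ?_
  -- pointwise bound
  obtain ⟨b1, hb1⟩ : ∃ b1 : List Dir → ℝ, b1 = fun w =>
    if κ * (Slw L w).card < (Pw V w).card then (1 : ℝ) else 0 := ⟨_, rfl⟩
  obtain ⟨b2, hb2⟩ : ∃ b2 : List Dir → ℝ, b2 = fun w =>
    if ((fc w).card : ℝ) < ω + 25 * V.card then (1 : ℝ) else 0 := ⟨_, rfl⟩
  have hb10 : ∀ w, 0 ≤ b1 w := by
    intro w
    rw [hb1]
    dsimp only
    split_ifs <;> norm_num
  have hb20 : ∀ w, 0 ≤ b2 w := by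
    intro w
    rw [hb2]
    dsimp only
    split_ifs <;> norm_num
  have hkey : ∀ w ∈ KP n, ¬ ((fc w).card : ℝ) < ω + 25 * V.card → ω ≤ (Pw V w).card := by
    intro w hw h0
    have h3 : ((fc w).card : ℝ) ≤ (Pw V w).card + 25 * V.card := by
      exact_mod_cast Pw_card (Fin.mem_KP.mp hw).2.1 V
    linarith [not_lt.1 h0]
  have hpt : ∀ w ∈ KP n, |F w| * β (Slw L w).card ≤ |F w| * b + B * (b2 w + b1 w) := by
    intro w hw
    have hF0 := abs_nonneg (F w)
    have hF1' := hF1 w hw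
    have h1 : |F w| * β (Slw L w).card ≤ B := by
      calc |F w| * β (Slw L w).card ≤ 1 * B :=
            mul_le_mul hF1' (hβ _).2 (hβ _).1 zero_le_one
        _ = B := one_mul _
    have h2 : 0 ≤ |F w| * b := mul_nonneg hF0 hb
    by_cases c1 : κ * (Slw L w).card < (Pw V w).card
    · have h3 : b1 w = 1 := by rw [hb1]; exact if_pos c1
      rw [h3]
      have h4 := mul_nonneg hB0 (hb20 w)
      rw [mul_add, mul_one]
      linarith
    · by_cases c2 : ((fc w).card : ℝ) < ω + 25 * V.card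
      · have h3 : b2 w = 1 := by rw [hb2]; exact if_pos c2
        rw [h3]
        have h4 := mul_nonneg hB0 (hb10 w)
        rw [mul_add, mul_one]
        linarith
      · have h3 := hkey w hw c2
        have h4 : ((Pw V w).card : ℝ) ≤ κ * (Slw L w).card := by exact_mod_cast not_lt.1 c1
        have h5 := hβb (Slw L w).card (h3.trans h4)
        have h6 := mul_le_mul_of_nonneg_left h5 hF0
        have h7 : 0 ≤ B * (b2 w + b1 w) := mul_nonneg hB0 (add_nonneg (hb20 w) (hb10 w))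
        linarith
  have hb2s : ∑ w ∈ KP n, b2 w =
      (((KP n).filter (fun w => ((fc w).card : ℝ) < ω + 25 * V.card)).card : ℝ) := by
    rw [hb2, ← Finset.sum_filter, sum_const, nsmul_one]
  have hb1s : ∑ w ∈ KP n, b1 w ≤
      (((KP n).filter (fun w => ((fc w).card : ℝ) < ω + 25 * V.card)).card : ℝ) +
        Real.exp (-(ω / κ)) * ((KP n).card : ℝ) := by
    have h1 : ∑ w ∈ KP n, b1 w =
        (((KP n).filter (fun w => κ * (Slw L w).card < (Pw V w).card)).card : ℝ) := by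
      rw [hb1, ← Finset.sum_filter, sum_const, nsmul_one]
    rw [h1, ← hb2s]
    refine hsel.trans ?_
    have h2 : Real.exp (-(ω / κ)) * ((KP n).card : ℝ) = ∑ _w ∈ KP n, Real.exp (-(ω / κ)) := by
      rw [sum_const, nsmul_eq_mul, mul_comm]
    rw [h2, ← sum_add_distrib]
    refine sum_le_sum fun w hw => ?_
    by_cases c2 : ((fc w).card : ℝ) < ω + 25 * V.card
    · have h3 : b2 w = 1 := by rw [hb2]; exact if_pos c2
      rw [h3]
      have h4 : Real.exp (-(((Pw V w).card : ℝ) / κ)) ≤ 1 := by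
        rw [Real.exp_le_one_iff]
        have : 0 ≤ ((Pw V w).card : ℝ) / κ := by positivity
        linarith
      have h5 := (Real.exp_pos (-(ω / κ))).le
      linarith
    · have h3 := hkey w hw c2
      have h4 : Real.exp (-(((Pw V w).card : ℝ) / κ)) ≤ Real.exp (-(ω / κ)) :=
        Real.exp_le_exp.2 (neg_le_neg (div_le_div_of_nonneg_right h3 hκ0.le))
      linarith [hb20 w]
  have hsum : ∑ w ∈ KP n, |F w| * β (Slw L w).card ≤
      b * ∑ w ∈ KP n, |F w| + B * (∑ w ∈ KP n, b2 w + ∑ w ∈ KP n, b1 w) := by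
    rw [mul_sum, ← sum_add_distrib, mul_sum, ← sum_add_distrib]
    refine sum_le_sum fun w hw => ?_
    rw [mul_comm b]
    exact hpt w hw
  refine hsum.trans ?_
  have h9 := mul_le_mul_of_nonneg_left hb1s hB0
  rw [hb2s]
  linarith

end Pool.Agent.N949.AL
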