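import Pool.Agent.N949.AL.TSP
import Pool.Agent.N547.EG.SEL

/-!
# One family of corners which is good for most polygons
-/

set_option autoImplicit false

namespace Pool.Agent.N949.AL

open Finset Pool.Agent.H976R2 Pool.Agent.H976R2.Lip Pool.Agent.H924P Pool.Agent.H739K
open Pool.Agent.R54.AS
open scoped Classical

/-- the square of the label avoids `V` (the two vertices which can be exchanged) -/
def Av (V : Finset P2) (q : P2 × P2) : Prop := (q.1.1, q.2.2) ∉ V ∧ (q.2.1, q.1.2) ∉ V

/-- the labels of the free corners which avoid `V` -/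
noncomputable def Pw (V : Finset P2) (w : List Dir) : Finset (P2 × P2) :=
  ((fc w).image (lab w)).filter (Av V)

theorem mem_Pw {V : Finset P2} {w : List Dir} {q : P2 × P2} :
    q ∈ Pw V w ↔ Hs w q ∧ Av V q := by
  unfold Pw Hs
  rw [mem_filter, mem_image]

theorem lab_near (w : List Dir) (i : ℕ) (hi : i + 1 < w.length) :
    |(lab w i).1.1 - (lab w i).2.1| ≤ 2 ∧ |(lab w i).1.2 - (lab w i).2.2| ≤ 2 := by
  have h1 := PP_succ w i (by omega)
  have h2 := PP_succ w (i + 1) hi
  obtain ⟨d1, d2⟩ := dv_abs (lt w i)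
  obtain ⟨d3, d4⟩ := dv_abs (lt w (i + 1))
  have h3 : (lab w i).2 = (lab w i).1 + dv (lt w i) + dv (lt w (i + 1)) := by
    unfold lab
    simp only
    rw [← h1, ← h2]
  rw [h3]
  simp only [Prod.fst_add, Prod.snd_add]
  rw [abs_le] at *
  constructor
  · omega
  · rw [abs_le]
    omega

/-- a corner: the middle vertex and the fourth vertex of the square -/
theorem corner (w : List Dir) {i : ℕ} (hi : i ∈ fc w) :
    (PP w (i + 1) = ((lab w i).2.1, (lab w i).1.2) ∧ fv w i = ((lab w i).1.1, (lab w i).2.2)) ∨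
    (PP w (i + 1) = ((lab w i).1.1, (lab w i).2.2) ∧ fv w i = ((lab w i).2.1, (lab w i).1.2)) := by
  rw [Pool.Agent.R715.ASFlip.mem_fc] at hi
  obtain ⟨hi, hp, -⟩ := hi
  have h1 := PP_succ w i (by omega)
  have h2 := PP_succ w (i + 1) hi
  have h3 : fv w i = PP w i + dv (lt w (i + 1)) := rfl
  have h4 : (lab w i).1 = PP w i := rfl
  have h5 : (lab w i).2 = PP w i + dv (lt w i) + dv (lt w (i + 1)) := by
    rw [← h1, ← h2]
    rfl
  rw [h4, h5, h3, h1]
  unfold perp at hp
  generalize PP w i = q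
  obtain ⟨q1, q2⟩ := q
  generalize lt w i = a at *
  generalize lt w (i + 1) = b at *
  unfold dv
  cases a <;> cases b <;> simp [dx, dy] at hp ⊢

/-- few free corners do not avoid `V` -/
theorem Pw_card {w : List Dir} (hw : Saw w) (V : Finset P2) :
    (fc w).card ≤ (Pw V w).card + 25 * V.card := by
  have h1 : (fc w).card = ((fc w).image (lab w)).card := by
    rw [card_image_of_injOn]
    intro i hi j hj h
    exact lab_inj hw hi hj h
  rw [h1]
  have h2 : (fc w).image (lab w) ⊆ Pw V w ∪
      ((fc w).image (lab w)).filter (fun q => ¬ Av V q) := by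
    intro q hq
    rw [mem_union, mem_filter]
    unfold Pw
    rw [mem_filter]
    by_cases h : Av V q
    · exact Or.inl ⟨hq, h⟩
    · exact Or.inr ⟨hq, h⟩
  have h3 : (((fc w).image (lab w)).filter (fun q => ¬ Av V q)).card ≤ 25 * V.card := by
    have h4 : ((fc w).image (lab w)).filter (fun q => ¬ Av V q) ⊆
        ((fc w).filter (fun i => PP w i ∈ V.biUnion (fun v => TH966.AK.box v 2))).image (lab w) := by
      intro q hq
      rw [mem_filter, mem_image] at hq
      obtain ⟨⟨i, hi, rfl⟩, hq⟩ := hq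
      rw [mem_image]
      refine ⟨i, ?_, rfl⟩
      rw [mem_filter]
      refine ⟨hi, ?_⟩
      rw [mem_biUnion]
      have hi' := (Pool.Agent.R715.ASFlip.mem_fc w i).1 hi
      obtain ⟨n1, n2⟩ := lab_near w i hi'.1
      have h5 : (lab w i).1 = PP w i := rfl
      unfold Av at hq
      rw [not_and_or, not_not, not_not] at hq
      rcases hq with hq | hq
      · refine ⟨_, hq, ?_⟩
        rw [TH966.AK.mem_box, ← h5]
        simp only
        rw [abs_le] at *
        constructor
        · omega
        · rw [abs_le]; push_cast; omega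
      · refine ⟨_, hq, ?_⟩
        rw [TH966.AK.mem_box, ← h5]
        simp only
        rw [abs_le] at *
        constructor
        · push_cast; omega
        · rw [abs_le]; omega
    refine (card_le_card h4).trans (card_image_le.trans ?_)
    have h6 : ((fc w).filter (fun i => PP w i ∈ V.biUnion (fun v => TH966.AK.box v 2))).card ≤
        (V.biUnion (fun v => TH966.AK.box v 2)).card := by
      refine card_le_card_of_injOn (fun i => PP w i) ?_ ?_
      · intro i hi
        rw [mem_coe, mem_filter] at hi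
        exact hi.2
      · intro i hi j hj hij
        rw [mem_coe, mem_filter, Pool.Agent.R715.ASFlip.mem_fc] at hi hj
        exact PP_inj hw (by omega) (by omega) hij
    refine h6.trans ?_
    have h7 := card_biUnion_le_card_mul V (fun v => TH966.AK.box v 2) 25 (fun v _ => by
      rw [TH966.AK.card_box]
      norm_num)
    rw [mul_comm]
    exact h7
  have h5 := (card_le_card h2).trans (card_union_le _ _)
  omega

theorem select : ∃ κ : ℕ, 1 ≤ κ ∧ ∀ (X : Finset (List Dir)) (V : Finset P2),
    ∃ L : Finset (P2 × P2), Cfr L ∧ (∀ q ∈ L, Av V q) ∧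
      ((X.filter (fun w => κ * (Slw L w).card < (Pw V w).card)).card : ℝ) ≤
        ∑ w ∈ X, Real.exp (-(((Pw V w).card : ℝ) / κ)) := by
  obtain ⟨κ, hκ, h⟩ := Pool.Agent.N547.EG.Sel.sel 2025
  refine ⟨κ, hκ, fun X V => ?_⟩
  obtain ⟨U, hU⟩ : ∃ U, U = X.biUnion (Pw V) := ⟨_, rfl⟩
  have hUm : ∀ q ∈ U, (|q.1.1 - q.2.1| ≤ 2 ∧ |q.1.2 - q.2.2| ≤ 2) ∧ Av V q := by
    intro q hq
    rw [hU, mem_biUnion] at hq
    obtain ⟨w, -, hw⟩ := hq
    rw [mem_Pw] at hw
    obtain ⟨⟨i, hi, rfl⟩, h2⟩ := hw
    exact ⟨lab_near w i ((Pool.Agent.R715.ASFlip.mem_fc w i).1 hi).1, h2⟩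
  obtain ⟨ι, i1, i2, Λ, h1, h2⟩ := h (P2 × P2) U cfl (fun q q' h => cfl_symm h) (by
      intro q hq
      have h3 : U.filter (fun q' => cfl q q') ⊆
          TH966.AK.box q.1 2 ×ˢ TH966.AK.box q.1 4 := by
        intro q' hq'
        rw [mem_filter] at hq'
        obtain ⟨hq', hc⟩ := hq'
        have h4 := (hUm q' hq').1
        unfold cfl at hc
        rw [mem_product, TH966.AK.mem_box, TH966.AK.mem_box]
        simp only [abs_le] at hc h4 ⊢
        push_cast
        omega
      refine (card_le_card h3).trans ?_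
      rw [card_product, TH966.AK.card_box, TH966.AK.card_box]
      norm_num)
  have hcount : ∀ w ∈ X,
      ((univ.filter (fun i : ι => κ * (Slw (Λ i) w).card < (Pw V w).card)).card : ℝ) ≤
        Real.exp (-(((Pw V w).card : ℝ) / κ)) * Fintype.card ι := by
    intro w hw
    refine le_trans ?_ (h2 (Pw V w) ?_)
    · rw [Nat.cast_le]
      refine card_le_card fun i hi => ?_
      rw [mem_filter] at hi ⊢
      refine ⟨hi.1, lt_of_le_of_lt (Nat.mul_le_mul_left _ (card_le_card fun q hq => ?_)) hi.2⟩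
      have hq' := (@Finset.mem_inter _ (fun a b => Classical.propDecidable (a = b)) _ _ _).1 hq
      rw [mem_Pw] at hq'
      rw [mem_Slw]
      exact ⟨hq'.1, hq'.2.1⟩
    · intro q hq
      rw [hU, mem_biUnion]
      exact ⟨w, hw, hq⟩
  have havg : ∑ i : ι,
      ((X.filter (fun w => κ * (Slw (Λ i) w).card < (Pw V w).card)).card : ℝ) ≤
      ∑ _i : ι, ∑ w ∈ X, Real.exp (-(((Pw V w).card : ℝ) / κ)) := by
    rw [sum_const, card_univ, nsmul_eq_mul]
    have e1 : ∑ i : ι,
        ((X.filter (fun w => κ * (Slw (Λ i) w).card < (Pw V w).card)).card : ℝ) =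
        ∑ w ∈ X,
          ((univ.filter (fun i : ι => κ * (Slw (Λ i) w).card < (Pw V w).card)).card : ℝ) := by
      simp only [card_filter, Nat.cast_sum]
      rw [sum_comm]
    rw [e1, mul_sum]
    refine sum_le_sum fun w hw => ?_
    rw [mul_comm]
    exact hcount w hw
  obtain ⟨i, -, hi⟩ := exists_le_of_sum_le univ_nonempty havg
  exact ⟨Λ i, fun q hq q' hq' hne => (h1 i).2 q hq q' hq' hne,
    fun q hq => (hUm q ((h1 i).1 hq)).2, hi⟩

end Pool.Agent.N949.AL
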