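import Pool.Agent.N949.AO.Cls
import Pool.Agent.R54.AS.Flip
import Pool.Agent.R54.AS.Area
import Pool.Agent.R54.AS.Fin

/-!
# The free corners of a self-avoiding polygon as switches of the area
-/

set_option autoImplicit false

namespace Pool.Agent.N949.AL

open Finset Pool.Agent.H976R2 Pool.Agent.H976R2.Lip Pool.Agent.H924P Pool.Agent.H739K
open Pool.Agent.R54.AS
open Pool.Agent.N949.AO (TS Inv)
open scoped Classical

abbrev P2 := ℤ × ℤ

/-- the label of the corner `i`: the vertices before and after it -/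
def lab (w : List Dir) (i : ℕ) : P2 × P2 := (PP w i, PP w (i + 2))

/-- conflict of labels -/
def cfl (q q' : P2 × P2) : Prop := |q.1.1 - q'.1.1| ≤ 2 ∧ |q.1.2 - q'.1.2| ≤ 2

theorem cfl_symm {q q' : P2 × P2} (h : cfl q q') : cfl q' q := by
  unfold cfl at *
  rw [abs_sub_comm, abs_sub_comm q'.1.2]
  exact h

theorem dv_abs (e : Dir) : |(dv e).1| ≤ 1 ∧ |(dv e).2| ≤ 1 := by
  cases e <;> simp [dv, dx, dy]

theorem lab_inj {w : List Dir} (hw : Saw w) {i j : ℕ} (hi : i ∈ fc w) (hj : j ∈ fc w)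
    (h : lab w i = lab w j) : i = j := by
  rw [Pool.Agent.R715.ASFlip.mem_fc] at hi hj
  unfold lab at h
  rw [Prod.mk.injEq] at h
  exact PP_inj hw (by omega) (by omega) h.1

theorem far_nr {w : List Dir} {i j : ℕ} (hi : i ∈ fc w) (hj : j ∈ fc w)
    (h : ¬ cfl (lab w i) (lab w j)) : j ∉ nr w i := by
  rw [Pool.Agent.R715.ASFlip.mem_fc] at hi hj
  intro hn
  rw [Pool.Agent.R715.ASFlip.mem_nr] at hn
  obtain ⟨-, hn⟩ := hn
  apply h
  unfold cfl lab
  simp only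
  rcases hn with hn | hn
  · have h1 := PP_succ w i (by omega)
    have h2 := PP_succ w j (by omega)
    obtain ⟨d1, d2⟩ := dv_abs (lt w i)
    obtain ⟨d3, d4⟩ := dv_abs (lt w j)
    rw [abs_le] at *
    rcases (by omega : i = j ∨ j = i + 1 ∨ i = j + 1) with rfl | rfl | rfl
    · simp
    · rw [h1]
      simp only [Prod.fst_add, Prod.snd_add]
      constructor
      · omega
      · rw [abs_le]
        omega
    · rw [h2]
      simp only [Prod.fst_add, Prod.snd_add]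
      constructor
      · omega
      · rw [abs_le]
        omega
  · unfold fv at hn
    obtain ⟨d1, d2⟩ := dv_abs (lt w (i + 1))
    obtain ⟨d3, d4⟩ := dv_abs (lt w (j + 1))
    have h1 := congrArg Prod.fst hn
    have h2 := congrArg Prod.snd hn
    simp only [Prod.fst_add, Prod.snd_add] at h1 h2
    rw [abs_le] at *
    constructor
    · omega
    · rw [abs_le]
      omega

/-- everything about the flip of a free corner -/
theorem flip_all {w : List Dir} {n : ℕ} (hn : 3 ≤ n) (hw : w ∈ KP n) {i : ℕ} (hi : i ∈ fc w) :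
    sw w i ∈ KP n ∧ i ∈ fc (sw w i) ∧ sw (sw w i) i = w ∧ lab (sw w i) i = lab w i ∧
    sg (sw w i) i = - sg w i ∧ (sg w i = 1 ∨ sg w i = -1) ∧
    (ar (sw w i) : ℤ) = ar w + sg w i ∧
    (∀ j, j ≠ i + 1 → PP (sw w i) j = PP w j) ∧
    ∀ j ∈ fc w, ¬ cfl (lab w i) (lab w j) →
      j ∈ fc (sw w i) ∧ lab (sw w i) j = lab w j ∧ sg (sw w i) j = sg w j := by
  obtain ⟨hl, hs, hq⟩ := Fin.mem_KP.mp hw
  obtain ⟨h1, h2, h3, h4, h5, h6, h7, h8, h9, h10⟩ := flip w hs i hi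
  obtain ⟨h11, h12⟩ := areaS flip w (by omega) hs hq i hi
  have hlab : lab (sw w i) i = lab w i := by
    unfold lab
    rw [h6 i (by omega), h6 (i + 2) (by omega)]
  refine ⟨Fin.mem_KP.mpr ⟨by omega, h2, by rw [h3]; exact hq⟩, h4, h5, hlab, ?_, h11, ?_, h6, ?_⟩
  · unfold sg
    rw [h5]
    ring
  · unfold sg
    ring
  · intro j hj hc
    have hnr := far_nr hi hj hc
    obtain ⟨h13, h14⟩ := h10 j hj hnr
    have hfar : ¬ (i ≤ j + 1 ∧ j ≤ i + 1) := by
      intro hcon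
      exact hnr ((Pool.Agent.R715.ASFlip.mem_nr w i j).2 ⟨hj, Or.inl hcon⟩)
    refine ⟨h13, ?_, h12 j hj hnr⟩
    unfold lab
    rw [h6 j (by omega), h6 (j + 2) (by omega)]

/-- `w` has the free corner with label `q` -/
def Hs (w : List Dir) (q : P2 × P2) : Prop := ∃ i ∈ fc w, lab w i = q

/-- the flip of the corner with label `q` -/
noncomputable def fl (w : List Dir) (q : P2 × P2) : List Dir :=
  if h : Hs w q then sw w h.choose else w

/-- the slots -/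
noncomputable def Slw (L : Finset (P2 × P2)) (w : List Dir) : Finset (P2 × P2) :=
  L.filter (fun q => Hs w q)

/-- the occupied slots -/
noncomputable def Ocw (L : Finset (P2 × P2)) (w : List Dir) : Finset (P2 × P2) :=
  L.filter (fun q => ∃ i ∈ fc w, lab w i = q ∧ sg w i = -1)

/-- a family of labels without conflicts -/
def Cfr (L : Finset (P2 × P2)) : Prop := ∀ q ∈ L, ∀ q' ∈ L, q ≠ q' → ¬ cfl q q'

theorem fl_eq {w : List Dir} (hw : Saw w) {i : ℕ} (hi : i ∈ fc w) : fl w (lab w i) = sw w i := by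
  have h : Hs w (lab w i) := ⟨i, hi, rfl⟩
  unfold fl
  rw [dif_pos h]
  have h1 := h.choose_spec
  rw [lab_inj hw h1.1 hi h1.2]

/-- the effect of a flip on the other labels -/
theorem other {n : ℕ} (hn : 3 ≤ n) {L : Finset (P2 × P2)} (hL : Cfr L) {w : List Dir}
    (hw : w ∈ KP n) {i : ℕ} (hi : i ∈ fc w) (hiL : lab w i ∈ L) {q : P2 × P2} (hq : q ∈ L)
    (hne : q ≠ lab w i) (c : ℤ → Prop) :
    (∃ j ∈ fc (sw w i), lab (sw w i) j = q ∧ c (sg (sw w i) j)) ↔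
      ∃ j ∈ fc w, lab w j = q ∧ c (sg w j) := by
  obtain ⟨h1, h2, h3, h4, h5, h6, h7, h8, h9⟩ := flip_all hn hw hi
  constructor
  · rintro ⟨j, hj, hjq, hjc⟩
    obtain ⟨k1, k2, k3, k4, k5, k6, k7, k8, k9⟩ := flip_all hn h1 h2
    rw [h3] at k9
    have hc : ¬ cfl (lab (sw w i) i) (lab (sw w i) j) := by
      rw [h4, hjq]
      exact hL _ hiL _ hq (Ne.symm hne)
    obtain ⟨m1, m2, m3⟩ := k9 j hj hc
    exact ⟨j, m1, m2.trans hjq, by rw [m3]; exact hjc⟩
  · rintro ⟨j, hj, hjq, hjc⟩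
    have hc : ¬ cfl (lab w i) (lab w j) := by
      rw [hjq]
      exact hL _ hiL _ hq (Ne.symm hne)
    obtain ⟨m1, m2, m3⟩ := h9 j hj hc
    exact ⟨j, m1, m2.trans hjq, by rw [m3]; exact hjc⟩

theorem mem_Slw {L : Finset (P2 × P2)} {w : List Dir} {q : P2 × P2} :
    q ∈ Slw L w ↔ q ∈ L ∧ Hs w q := by
  unfold Slw
  rw [mem_filter]

theorem mem_Ocw {L : Finset (P2 × P2)} {w : List Dir} {q : P2 × P2} :
    q ∈ Ocw L w ↔ q ∈ L ∧ ∃ i ∈ fc w, lab w i = q ∧ sg w i = -1 := by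
  unfold Ocw
  rw [mem_filter]

theorem Sl_sw {n : ℕ} (hn : 3 ≤ n) {L : Finset (P2 × P2)} (hL : Cfr L) {w : List Dir}
    (hw : w ∈ KP n) {i : ℕ} (hi : i ∈ fc w) (hiL : lab w i ∈ L) :
    Slw L (sw w i) = Slw L w := by
  obtain ⟨h1, h2, h3, h4, h5, h6, h7, h8, h9⟩ := flip_all hn hw hi
  ext q
  rw [mem_Slw, mem_Slw]
  refine and_congr_right fun hq => ?_
  by_cases hne : q = lab w i
  · subst hne
    exact ⟨fun _ => ⟨i, hi, rfl⟩, fun _ => ⟨i, h2, h4⟩⟩
  · have := other hn hL hw hi hiL hq hne (fun _ => True)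
    simpa [Hs] using this

theorem Oc_sw {n : ℕ} (hn : 3 ≤ n) {L : Finset (P2 × P2)} (hL : Cfr L) {w : List Dir}
    (hw : w ∈ KP n) {i : ℕ} (hi : i ∈ fc w) (hiL : lab w i ∈ L) :
    (sg w i = 1 → Ocw L (sw w i) = insert (lab w i) (Ocw L w)) ∧
    (sg w i = -1 → Ocw L (sw w i) = (Ocw L w).erase (lab w i)) := by
  obtain ⟨h1, h2, h3, h4, h5, h6, h7, h8, h9⟩ := flip_all hn hw hi
  have hs' : Saw (sw w i) := (Fin.mem_KP.mp h1).2.1
  constructor
  · intro hs
    ext q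
    rw [mem_insert, mem_Ocw, mem_Ocw]
    by_cases hne : q = lab w i
    · subst hne
      exact ⟨fun _ => Or.inl rfl, fun _ => ⟨hiL, i, h2, h4, by rw [h5, hs]⟩⟩
    · constructor
      · rintro ⟨hq, h10⟩
        exact Or.inr ⟨hq, (other hn hL hw hi hiL hq hne (fun s => s = -1)).1 h10⟩
      · rintro (h10 | ⟨hq, h10⟩)
        · exact absurd h10 hne
        · exact ⟨hq, (other hn hL hw hi hiL hq hne (fun s => s = -1)).2 h10⟩
  · intro hs
    ext q
    rw [mem_erase, mem_Ocw, mem_Ocw]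
    by_cases hne : q = lab w i
    · subst hne
      constructor
      · rintro ⟨-, j, hj, hj1, hj2⟩
        rw [← h4] at hj1
        have := lab_inj hs' hj h2 hj1
        subst this
        rw [h5, hs] at hj2
        norm_num at hj2
      · rintro ⟨h10, -⟩
        exact absurd rfl h10
    · constructor
      · rintro ⟨hq, h10⟩
        exact ⟨hne, hq, (other hn hL hw hi hiL hq hne (fun s => s = -1)).1 h10⟩
      · rintro ⟨-, hq, h10⟩
        exact ⟨hq, (other hn hL hw hi hiL hq hne (fun s => s = -1)).2 h10⟩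

/-- the polygons with area `a` -/
noncomputable def KA (n a : ℕ) : Finset (List Dir) := (KP n).filter (fun w => ar w = a)

theorem mem_KA {n a : ℕ} {w : List Dir} : w ∈ KA n a ↔ w ∈ KP n ∧ ar w = a := by
  unfold KA
  rw [mem_filter]

/-- the free corners as switches of the area -/
theorem tsp {n : ℕ} (hn : 3 ≤ n) {L : Finset (P2 × P2)} (hL : Cfr L) :
    TS (KA n) 1 (Slw L) (Ocw L) fl fl where
  sub := by
    intro a w hw q hq
    rw [mem_Ocw] at hq
    rw [mem_Slw]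
    obtain ⟨h1, i, h2, h3, -⟩ := hq
    exact ⟨h1, i, h2, h3⟩
  on_K := by
    intro a w hw q hq hq'
    rw [mem_KA] at hw
    rw [mem_Slw] at hq
    obtain ⟨hqL, i, hi, rfl⟩ := hq
    obtain ⟨h1, h2, h3, h4, h5, h6, h7, h8, h9⟩ := flip_all hn hw.1 hi
    rw [fl_eq (Fin.mem_KP.mp hw.1).2.1 hi, mem_KA]
    refine ⟨h1, ?_⟩
    rcases h6 with h6 | h6
    · rw [h6] at h7
      omega
    · exact absurd (mem_Ocw.2 ⟨hqL, i, hi, rfl, h6⟩) hq'
  on_Sl := by
    intro a w hw q hq hq'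
    rw [mem_KA] at hw
    rw [mem_Slw] at hq
    obtain ⟨hqL, i, hi, rfl⟩ := hq
    rw [fl_eq (Fin.mem_KP.mp hw.1).2.1 hi]
    exact Sl_sw hn hL hw.1 hi hqL
  on_Oc := by
    intro a w hw q hq hq'
    rw [mem_KA] at hw
    rw [mem_Slw] at hq
    obtain ⟨hqL, i, hi, rfl⟩ := hq
    obtain ⟨h1, h2, h3, h4, h5, h6, h7, h8, h9⟩ := flip_all hn hw.1 hi
    rw [fl_eq (Fin.mem_KP.mp hw.1).2.1 hi]
    rcases h6 with h6 | h6
    · have h10 := (Oc_sw hn hL hw.1 hi hqL).1 h6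
      rw [h10]
      ext q
      simp
    · exact absurd (mem_Ocw.2 ⟨hqL, i, hi, rfl, h6⟩) hq'
  off_on := by
    intro a w hw q hq hq'
    rw [mem_KA] at hw
    rw [mem_Slw] at hq
    obtain ⟨hqL, i, hi, rfl⟩ := hq
    obtain ⟨h1, h2, h3, h4, h5, h6, h7, h8, h9⟩ := flip_all hn hw.1 hi
    rw [fl_eq (Fin.mem_KP.mp hw.1).2.1 hi, ← h4, fl_eq (Fin.mem_KP.mp h1).2.1 h2]
    exact h3
  off_K := by
    intro a w hw q hq
    rw [mem_KA] at hw
    rw [mem_Ocw] at hq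
    obtain ⟨hqL, i, hi, rfl, hs⟩ := hq
    obtain ⟨h1, h2, h3, h4, h5, h6, h7, h8, h9⟩ := flip_all hn hw.1 hi
    rw [fl_eq (Fin.mem_KP.mp hw.1).2.1 hi]
    rw [hs] at h7
    exact ⟨ar (sw w i), by omega, mem_KA.2 ⟨h1, rfl⟩⟩
  off_Sl := by
    intro a w hw q hq
    rw [mem_KA] at hw
    rw [mem_Ocw] at hq
    obtain ⟨hqL, i, hi, rfl, hs⟩ := hq
    rw [fl_eq (Fin.mem_KP.mp hw.1).2.1 hi]
    exact Sl_sw hn hL hw.1 hi hqL
  off_Oc := by
    intro a w hw q hq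
    rw [mem_KA] at hw
    rw [mem_Ocw] at hq
    obtain ⟨hqL, i, hi, rfl, hs⟩ := hq
    rw [fl_eq (Fin.mem_KP.mp hw.1).2.1 hi]
    have h10 := (Oc_sw hn hL hw.1 hi hqL).2 hs
    rw [h10]
    ext q
    simp
  on_off := by
    intro a w hw q hq
    rw [mem_KA] at hw
    rw [mem_Ocw] at hq
    obtain ⟨hqL, i, hi, rfl, hs⟩ := hq
    obtain ⟨h1, h2, h3, h4, h5, h6, h7, h8, h9⟩ := flip_all hn hw.1 hi
    rw [fl_eq (Fin.mem_KP.mp hw.1).2.1 hi, ← h4, fl_eq (Fin.mem_KP.mp h1).2.1 h2]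
    exact h3

end Pool.Agent.N949.AL
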